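import Pool.Agent.H125.UM.Core

set_option autoImplicit false
set_option linter.unusedSectionVars false

namespace Pool.Agent.Results.MP_53e992_co.UncountableMotion

open Cardinal Pool.Agent.H125.UM

/-- The rooted graph `(G, w)` is tree-like: it is connected and every vertex `y` has a neighbour
`x` such that `y` lies on every shortest path from `x` to `w`. -/
def TreeLike {V : Type} (G : SimpleGraph V) (w : V) : Prop :=
  G.Connected ∧ ∀ y, ∃ x, G.Adj y x ∧ ∀ p : G.Walk x w, p.length = G.dist x w → y ∈ p.support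

section graph

variable {Θ : Type} [LinearOrder Θ] [WellFoundedLT Θ]

/-- directed adjacency -/
inductive AA : Option (XX Θ × Bool × ℕ) → Option (XX Θ × Bool × ℕ) → Prop
  | root (x : XX Θ) : AA none (some (x, false, 0))
  | cross (x y : XX Θ) (h : x ≤ y) : AA (some (x, false, 0)) (some (y, true, 0))
  | ray (x : XX Θ) (i : Bool) (n : ℕ) : AA (some (x, i, n)) (some (x, i, n + 1))

lemma AA_irrefl (v : Option (XX Θ × Bool × ℕ)) : ¬ AA v v := by
  intro h
  generalize hw : v = w at h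
  have h' : AA v w := by rw [← hw] at h ⊢; exact h
  clear h
  cases h' with
  | root x => cases hw
  | cross x y h => cases hw
  | ray x i n => simp at hw

variable (Θ) in
/-- the graph -/
def GG : SimpleGraph (Option (XX Θ × Bool × ℕ)) where
  Adj u v := AA u v ∨ AA v u
  symm := ⟨fun _ _ h => h.symm⟩
  loopless := ⟨fun v h => by rcases h with h | h <;> exact AA_irrefl v h⟩

lemma adjF (v : Option (XX Θ × Bool × ℕ)) (t : XX Θ) : (GG Θ).Adj v (some (t, false, 0)) ↔
    v = none ∨ (∃ y, t ≤ y ∧ v = some (y, true, 0)) ∨ v = some (t, false, 1) := by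
  constructor
  · rintro (h | h)
    · cases h with
      | root x => exact Or.inl rfl
    · cases h with
      | cross x y h => exact Or.inr (Or.inl ⟨y, h, rfl⟩)
      | ray x i n => exact Or.inr (Or.inr rfl)
  · rintro (rfl | ⟨y, hy, rfl⟩ | rfl)
    · exact Or.inl (AA.root t)
    · exact Or.inr (AA.cross t y hy)
    · exact Or.inr (AA.ray t false 0)

lemma adjT (v : Option (XX Θ × Bool × ℕ)) (t : XX Θ) : (GG Θ).Adj v (some (t, true, 0)) ↔
    (∃ x, x ≤ t ∧ v = some (x, false, 0)) ∨ v = some (t, true, 1) := by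
  constructor
  · rintro (h | h)
    · cases h with
      | cross x y h => exact Or.inl ⟨x, h, rfl⟩
    · cases h with
      | ray x i n => exact Or.inr rfl
  · rintro (⟨y, hy, rfl⟩ | rfl)
    · exact Or.inl (AA.cross y t hy)
    · exact Or.inr (AA.ray t true 0)

lemma adjR (v : Option (XX Θ × Bool × ℕ)) (x : XX Θ) (i : Bool) (n : ℕ) :
    (GG Θ).Adj v (some (x, i, n + 1)) ↔ v = some (x, i, n) ∨ v = some (x, i, n + 2) := by
  constructor
  · rintro (h | h)
    · cases h with
      | ray x i n => exact Or.inl rfl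
    · cases h with
      | ray x i n => exact Or.inr rfl
  · rintro (rfl | rfl)
    · exact Or.inl (AA.ray x i n)
    · exact Or.inr (AA.ray x i (n + 1))

/-! ### tree-like -/

lemma connected : (GG Θ).Connected := by
  have hr : ∀ v, (GG Θ).Reachable v none := by
    have h0 : ∀ x : XX Θ, (GG Θ).Reachable (some (x, false, 0)) none := fun x =>
      SimpleGraph.Adj.reachable (Or.inr (AA.root x))
    have h1 : ∀ x : XX Θ, (GG Θ).Reachable (some (x, true, 0)) none := fun x =>
      (SimpleGraph.Adj.reachable (Or.inr (AA.cross x x le_rfl))).trans (h0 x)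
    rintro (_ | ⟨x, i, n⟩)
    · exact SimpleGraph.Reachable.refl _
    · induction n with
      | zero =>
        cases i
        · exact h0 x
        · exact h1 x
      | succ n ih => exact (SimpleGraph.Adj.reachable (Or.inr (AA.ray x i n))).trans ih
  have : Nonempty (Option (XX Θ × Bool × ℕ)) := ⟨none⟩
  exact SimpleGraph.Connected.mk fun u v => (hr u).trans (hr v).symm

lemma walk_pass (x : XX Θ) (i : Bool) (n : ℕ) {u v : Option (XX Θ × Bool × ℕ)}
    (p : (GG Θ).Walk u v) (hu : ∃ k, n < k ∧ u = some (x, i, k))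
    (hv : ¬ ∃ k, n < k ∧ v = some (x, i, k)) : some (x, i, n) ∈ p.support := by
  induction p with
  | nil => exact absurd hu hv
  | @cons u u' v h p ih =>
    rw [SimpleGraph.Walk.support_cons, List.mem_cons]
    right
    obtain ⟨k, hk, rfl⟩ := hu
    obtain ⟨k, rfl⟩ : ∃ l, k = l + 1 := ⟨k - 1, by omega⟩
    have h' := (adjR u' x i k).1 h.symm
    rcases h' with rfl | rfl
    · by_cases hkn : k = n
      · subst hkn
        exact SimpleGraph.Walk.start_mem_support p
      · exact ih ⟨k, by omega, rfl⟩ hv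
    · exact ih ⟨k + 2, by omega, rfl⟩ hv

lemma treeLike [Nonempty (XX Θ)] : TreeLike (GG Θ) none := by
  refine ⟨connected, ?_⟩
  rintro (_ | ⟨x, i, n⟩)
  · obtain ⟨x⟩ := ‹Nonempty (XX Θ)›
    exact ⟨some (x, false, 0), Or.inl (AA.root x), fun p _ => SimpleGraph.Walk.end_mem_support p⟩
  · refine ⟨some (x, i, n + 1), Or.inl (AA.ray x i n), fun p _ => ?_⟩
    exact walk_pass x i n p ⟨n + 1, by omega, rfl⟩ (by
      rintro ⟨k, -, h⟩
      cases h)

/-! ### automorphisms from order automorphisms -/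

/-- map on vertices -/
def mp (F : XX Θ → XX Θ) : Option (XX Θ × Bool × ℕ) → Option (XX Θ × Bool × ℕ)
  | none => none
  | some (x, i, n) => some (F x, i, n)

lemma mp_AA (F : XX Θ → XX Θ) (hF : Monotone F) {u v : Option (XX Θ × Bool × ℕ)}
    (h : AA u v) : AA (mp F u) (mp F v) := by
  cases h with
  | root x => exact AA.root _
  | cross x y h => exact AA.cross _ _ (hF h)
  | ray x i n => exact AA.ray _ _ _

/-- the graph automorphism of an order automorphism -/
noncomputable def au (F : XX Θ ≃o XX Θ) : GG Θ ≃g GG Θ where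
  toFun := mp F
  invFun := mp F.symm
  left_inv := by
    rintro (_ | ⟨x, i, n⟩)
    · rfl
    · simp [mp]
  right_inv := by
    rintro (_ | ⟨x, i, n⟩)
    · rfl
    · simp [mp]
  map_rel_iff' := by
    intro u v
    have hF : Monotone F := F.monotone
    have hF' : Monotone F.symm := F.symm.monotone
    have hinv : ∀ u, mp F.symm (mp F u) = u := by
      rintro (_ | ⟨x, i, n⟩)
      · rfl
      · simp [mp]
    constructor
    · rintro (h | h)
      · left
        have := mp_AA F.symm hF' h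
        simpa [hinv] using this
      · right
        have := mp_AA F.symm hF' h
        simpa [hinv] using this
    · rintro (h | h)
      · exact Or.inl (mp_AA F hF h)
      · exact Or.inr (mp_AA F hF h)

/-! ### motion -/

/-- change one coordinate -/
def upd [NoMaxOrder Θ] (x : XX Θ) (γ : Θ) (e : ℤ) : XX Θ :=
  ⟨fun β => if β = γ then x.1 γ + e else x.1 β, by
    obtain ⟨b, hb⟩ := x.2
    obtain ⟨g, hg⟩ := exists_gt γ
    refine ⟨max b g, fun β hβ => ?_⟩
    have h1 : β ≠ γ := (hg.trans_le ((le_max_right _ _).trans hβ)).ne'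
    simp only [h1, if_false]
    exact hb β ((le_max_left _ _).trans hβ)⟩

variable [NoMaxOrder Θ]

lemma upd_self (x : XX Θ) (γ : Θ) (e : ℤ) : (upd x γ e).1 γ = x.1 γ + e := if_pos rfl

lemma upd_ne (x : XX Θ) (γ : Θ) (e : ℤ) (β : Θ) (h : β ≠ γ) : (upd x γ e).1 β = x.1 β := if_neg h

lemma lt_iff' (x y : XX Θ) : x < y ↔ ∃ i, (∀ j, j < i → x.1 j = y.1 j) ∧ x.1 i < y.1 i := Iff.rfl

lemma lt_upd (x : XX Θ) (γ : Θ) : x < upd x γ 1 := by
  rw [lt_iff']
  refine ⟨γ, fun j hj => (upd_ne x γ 1 j hj.ne).symm, ?_⟩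
  rw [upd_self]
  omega

lemma upd_lt (x : XX Θ) (γ : Θ) : upd x γ (-1) < x := by
  rw [lt_iff']
  refine ⟨γ, fun j hj => upd_ne x γ (-1) j hj.ne, ?_⟩
  rw [upd_self]
  omega

lemma upd_lt_of_lt {x y : XX Θ} (h : x < y) : ∃ δ, ∀ γ, δ < γ → upd x γ 1 < y := by
  rw [lt_iff'] at h
  obtain ⟨i, hi, hlt⟩ := h
  refine ⟨i, fun γ hγ => ?_⟩
  rw [lt_iff']
  refine ⟨i, fun j hj => ?_, ?_⟩
  · rw [upd_ne x γ 1 j (hj.trans hγ).ne]
    exact hi j hj
  · rw [upd_ne x γ 1 i hγ.ne]
    exact hlt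

lemma upd_inj (x : XX Θ) (e : ℤ) (he : e ≠ 0) : Function.Injective fun γ => upd x γ e := by
  intro γ γ' h
  by_contra hne
  have h1 := congrArg (fun z : XX Θ => z.1 γ) h
  simp only [upd_self, upd_ne x γ' e γ hne] at h1
  omega

/-- the separated set is large -/
lemma sep [Nonempty Θ] (u v : Option (XX Θ × Bool × ℕ)) (hu : u = none ∨ ∃ x i, u = some (x, i, 0))
    (huv : u ≠ v) : ∃ (f : XX Θ) (e : ℤ) (i : Bool) (δ : Θ), e ≠ 0 ∧ ∀ γ, δ < γ →
      ¬ ((GG Θ).Adj u (some (upd f γ e, i, 0)) ↔ (GG Θ).Adj v (some (upd f γ e, i, 0))) := by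
  have hnone : ∀ (y : XX Θ) (j : Bool) (k : ℕ) (γ : Θ),
      (GG Θ).Adj none (some (upd y γ 1, false, 0)) ∧
      ¬ (GG Θ).Adj (some (y, j, k)) (some (upd y γ 1, false, 0)) := by
    intro y j k γ
    refine ⟨(adjF _ _).2 (Or.inl rfl), fun h => ?_⟩
    rcases (adjF _ _).1 h with h | ⟨y', h1, h2⟩ | h
    · cases h
    · simp only [Option.some.injEq, Prod.mk.injEq] at h2
      rw [← h2.1] at h1
      exact absurd h1 (not_le.2 (lt_upd y γ))
    · simp only [Option.some.injEq, Prod.mk.injEq] at h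
      exact absurd h.1 (lt_upd y γ).ne
  obtain ⟨δ0⟩ := ‹Nonempty Θ›
  rcases hu with rfl | ⟨x, i, rfl⟩
  · rcases v with _ | ⟨y, j, k⟩
    · exact absurd rfl huv
    · refine ⟨y, 1, false, δ0, one_ne_zero, fun γ _ h => ?_⟩
      exact (hnone y j k γ).2 (h.1 (hnone y j k γ).1)
  · rcases v with _ | ⟨y, j, k⟩
    · refine ⟨x, 1, false, δ0, one_ne_zero, fun γ _ h => ?_⟩
      exact (hnone x i 0 γ).2 (h.2 (hnone x i 0 γ).1)
    · cases i
      · -- u = (x, false, 0)
        by_cases hjk : j = false ∧ k = 0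
        · obtain ⟨rfl, rfl⟩ := hjk
          have hFF : ∀ {x y : XX Θ}, x < y → ∃ δ, ∀ γ, δ < γ →
              (GG Θ).Adj (some (x, false, 0)) (some (upd x γ 1, true, 0)) ∧
              ¬ (GG Θ).Adj (some (y, false, 0)) (some (upd x γ 1, true, 0)) := by
            intro x y hxy
            obtain ⟨δ, hδ⟩ := upd_lt_of_lt hxy
            refine ⟨δ, fun γ hγ => ⟨(adjT _ _).2 (Or.inl ⟨x, (lt_upd x γ).le, rfl⟩), fun h => ?_⟩⟩
            rcases (adjT _ _).1 h with ⟨y', h1, h2⟩ | h
            · simp only [Option.some.injEq, Prod.mk.injEq] at h2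
              rw [← h2.1] at h1
              exact absurd h1 (not_le.2 (hδ γ hγ))
            · simp at h
          have hne : x ≠ y := fun h => huv (by rw [h])
          rcases lt_or_gt_of_ne hne with hlt | hlt
          · obtain ⟨δ, hδ⟩ := hFF hlt
            exact ⟨x, 1, true, δ, one_ne_zero, fun γ hγ h => (hδ γ hγ).2 (h.1 (hδ γ hγ).1)⟩
          · obtain ⟨δ, hδ⟩ := hFF hlt
            exact ⟨y, 1, true, δ, one_ne_zero, fun γ hγ h => (hδ γ hγ).2 (h.2 (hδ γ hγ).1)⟩
        · refine ⟨max x y, 1, true, δ0, one_ne_zero, fun γ _ h => ?_⟩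
          have h1 : (GG Θ).Adj (some (x, false, 0)) (some (upd (max x y) γ 1, true, 0)) :=
            (adjT _ _).2 (Or.inl ⟨x, (le_max_left x y).trans (lt_upd _ γ).le, rfl⟩)
          rcases (adjT _ _).1 (h.1 h1) with ⟨y', -, h2⟩ | h2
          · simp only [Option.some.injEq, Prod.mk.injEq] at h2
            exact hjk ⟨h2.2.1, h2.2.2⟩
          · simp only [Option.some.injEq, Prod.mk.injEq] at h2
            have h3 : y < upd (max x y) γ 1 := (le_max_right x y).trans_lt (lt_upd _ γ)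
            exact absurd h2.1 h3.ne
      · by_cases hjk : j = true ∧ k = 0
        · obtain ⟨rfl, rfl⟩ := hjk
          have hTT : ∀ {x y : XX Θ}, x < y → ∃ δ, ∀ γ, δ < γ →
              (GG Θ).Adj (some (y, true, 0)) (some (upd x γ 1, false, 0)) ∧
              ¬ (GG Θ).Adj (some (x, true, 0)) (some (upd x γ 1, false, 0)) := by
            intro x y hxy
            obtain ⟨δ, hδ⟩ := upd_lt_of_lt hxy
            refine ⟨δ, fun γ hγ => ⟨(adjF _ _).2 (Or.inr (Or.inl ⟨y, (hδ γ hγ).le, rfl⟩)),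
              fun h => ?_⟩⟩
            rcases (adjF _ _).1 h with h | ⟨y', h1, h2⟩ | h
            · cases h
            · simp only [Option.some.injEq, Prod.mk.injEq] at h2
              rw [← h2.1] at h1
              exact absurd h1 (not_le.2 (lt_upd x γ))
            · simp at h
          have hne : x ≠ y := fun h => huv (by rw [h])
          rcases lt_or_gt_of_ne hne with hlt | hlt
          · obtain ⟨δ, hδ⟩ := hTT hlt
            exact ⟨x, 1, false, δ, one_ne_zero, fun γ hγ h => (hδ γ hγ).2 (h.2 (hδ γ hγ).1)⟩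
          · obtain ⟨δ, hδ⟩ := hTT hlt
            exact ⟨y, 1, false, δ, one_ne_zero, fun γ hγ h => (hδ γ hγ).2 (h.1 (hδ γ hγ).1)⟩
        · refine ⟨min x y, -1, false, δ0, by norm_num, fun γ _ h => ?_⟩
          have h1 : (GG Θ).Adj (some (x, true, 0)) (some (upd (min x y) γ (-1), false, 0)) :=
            (adjF _ _).2 (Or.inr (Or.inl ⟨x, (upd_lt _ γ).le.trans (min_le_left x y), rfl⟩))
          rcases (adjF _ _).1 (h.1 h1) with h2 | ⟨y', -, h2⟩ | h2
          · cases h2
          · simp only [Option.some.injEq, Prod.mk.injEq] at h2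
            exact hjk ⟨h2.2.1, h2.2.2⟩
          · simp only [Option.some.injEq, Prod.mk.injEq] at h2
            have h3 : upd (min x y) γ (-1) < y := (upd_lt _ γ).trans_le (min_le_right x y)
            exact absurd h2.1 h3.ne'

/-- an automorphism fixing the core is the identity -/
lemma core_fixed (φ : GG Θ ≃g GG Θ) (h0 : φ none = none)
    (h1 : ∀ x i, φ (some (x, i, 0)) = some (x, i, 0)) : ∀ v, φ v = v := by
  have key : ∀ (x : XX Θ) (i : Bool) (n : ℕ), φ (some (x, i, n)) = some (x, i, n) ∧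
      φ (some (x, i, n + 1)) = some (x, i, n + 1) := by
    intro x i n
    induction n with
    | zero =>
      refine ⟨h1 x i, ?_⟩
      have h2 : (GG Θ).Adj (φ (some (x, i, 1))) (φ (some (x, i, 0))) :=
        φ.map_adj_iff.2 (Or.inr (AA.ray x i 0))
      rw [h1] at h2
      cases i
      · rcases (adjF _ _).1 h2 with h | ⟨y, -, h⟩ | h
        · exact absurd (φ.injective (h.trans h0.symm)) (by simp)
        · exact absurd (φ.injective (h.trans (h1 y true).symm)) (by simp)
        · exact h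
      · rcases (adjT _ _).1 h2 with ⟨y, -, h⟩ | h
        · exact absurd (φ.injective (h.trans (h1 y false).symm)) (by simp)
        · exact h
    | succ n ih =>
      refine ⟨ih.2, ?_⟩
      have h2 : (GG Θ).Adj (φ (some (x, i, n + 2))) (φ (some (x, i, n + 1))) :=
        φ.map_adj_iff.2 (Or.inr (AA.ray x i (n + 1)))
      rw [ih.2] at h2
      rcases (adjR _ _ _ _).1 h2 with h | h
      · exact absurd (φ.injective (h.trans ih.1.symm)) (by simp)
      · exact h
  rintro (_ | ⟨x, i, n⟩)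
  · exact h0
  · exact (key x i n).1

theorem motion_ge [Nonempty Θ] (hcard : ∀ δ : Θ, #Θ ≤ #(Set.Ioi δ)) (φ : GG Θ ≃g GG Θ)
    (hφ : φ ≠ RelIso.refl _) : #Θ ≤ #{v // φ v ≠ v} := by
  obtain ⟨u, hu, huv⟩ : ∃ u, (u = none ∨ ∃ x i, u = some (x, i, 0)) ∧ u ≠ φ u := by
    by_contra hcon
    push Not at hcon
    apply hφ
    ext1 v
    exact core_fixed φ (hcon none (Or.inl rfl)).symm
      (fun x i => (hcon _ (Or.inr ⟨x, i, rfl⟩)).symm) v
  obtain ⟨f, e, i, δ, he, hsep⟩ := sep u (φ u) hu huv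
  refine (hcard δ).trans ?_
  refine Cardinal.mk_le_of_injective (f := fun γ : Set.Ioi δ =>
    (⟨some (upd f γ.1 e, i, 0), ?_⟩ : {v // φ v ≠ v})) ?_
  · intro h
    apply hsep γ.1 γ.2
    have h2 := φ.map_adj_iff (v := u) (w := some (upd f γ.1 e, i, 0))
    rw [h] at h2
    exact h2.symm
  · intro γ γ' h
    simp only [Subtype.mk.injEq, Option.some.injEq, Prod.mk.injEq, and_true] at h
    exact Subtype.ext (upd_inj f e he h)

end graph

/-- Tree-like graphs of uncountable motion which are not `K`-distinguishable, for every `K`. -/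
theorem result : ∀ K : Type, ∃ (V : Type) (G : SimpleGraph V) (w : V) (m : Cardinal.{0}),
    TreeLike G w ∧
    IsLeast {κ : Cardinal.{0} | ∃ φ : G ≃g G, φ ≠ RelIso.refl _ ∧ κ = #{v // φ v ≠ v}} m ∧
    ℵ₀ < m ∧ #K < m ∧ (∀ v, #(G.neighborSet v) ≤ 2 ^ m) ∧
    ∀ c : V → K, ∃ φ : G ≃g G, φ ≠ RelIso.refl _ ∧ ∀ v, c (φ v) = c v := by
  intro K
  set κ : Cardinal.{0} := Order.succ (max #(Bool × ℕ → K) (max #K ℵ₀)) with hκ
  have hκ0 : ℵ₀ ≤ max #(Bool × ℕ → K) (max #K ℵ₀) :=
    (le_max_right _ _).trans (le_max_right _ _)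
  have hreg : κ.IsRegular := isRegular_succ hκ0
  have hκ1 : ℵ₀ < κ := hκ0.trans_lt (Order.lt_succ _)
  have hκ2 : #K < κ :=
    ((le_max_left _ _).trans (le_max_right _ _)).trans_lt (Order.lt_succ _)
  have hκ3 : #(Bool × ℕ → K) < κ := (le_max_left _ _).trans_lt (Order.lt_succ _)
  let Θ : Type := κ.ord.ToType
  have : NoMaxOrder Θ := Cardinal.noMaxOrder hκ1.le
  have hΘ : #Θ = κ := mk_ord_toType κ
  have : Nonempty Θ := by
    rw [← Cardinal.mk_ne_zero_iff, hΘ]
    exact hreg.ne_zero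
  have hbd : ∀ f : (Bool × ℕ → K) → Θ, ∃ b, ∀ i, f i ≤ b := by
    intro f
    by_contra hcon
    push Not at hcon
    have hcof : IsCofinal (Set.range f) := by
      intro b
      obtain ⟨i, hi⟩ := hcon b
      exact ⟨f i, ⟨i, rfl⟩, hi.le⟩
    have h1 := Order.cof_le hcof
    have h2 : Order.cof Θ = κ := by
      rw [Ordinal.cof_toType, hreg.cof_ord]
    rw [h2] at h1
    exact absurd (h1.trans Cardinal.mk_range_le) (not_le.2 hκ3)
  have hIoi : ∀ δ : Θ, #Θ ≤ #(Set.Ioi δ) := by
    intro δ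
    by_contra hcon
    push Not at hcon
    obtain ⟨δ', hδ'⟩ := exists_gt δ
    have h1 : #(Set.Iio δ') < κ := by
      have h := Cardinal.mk_Iio_lt δ' (by rw [hΘ]; exact (Ordinal.type_toType _).symm)
      rwa [hΘ] at h
    have h2 : (Set.univ : Set Θ) ⊆ Set.Iio δ' ∪ Set.Ioi δ := by
      intro γ _
      rcases le_or_gt γ δ with h | h
      · exact Or.inl (h.trans_lt hδ')
      · exact Or.inr h
    have h3 : #Θ ≤ #(Set.Iio δ') + #(Set.Ioi δ) := by
      rw [← Cardinal.mk_univ]
      exact (Cardinal.mk_le_mk_of_subset h2).trans (Cardinal.mk_union_le _ _)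
    rw [hΘ] at h3 hcon
    exact absurd h3 (not_le.2 (Cardinal.add_lt_of_lt hκ1.le h1 hcon))
  have hmove := motion_ge (Θ := Θ) hIoi
  have hex : ∀ c : Option (XX Θ × Bool × ℕ) → K, ∃ φ : GG Θ ≃g GG Θ,
      φ ≠ RelIso.refl _ ∧ ∀ v, c (φ v) = c v := by
    intro c
    obtain ⟨F, ⟨x, hx⟩, hF⟩ := exists_auto hbd (fun x : XX Θ => fun p : Bool × ℕ => c (some (x, p)))
    refine ⟨au F, ?_, ?_⟩
    · intro h
      have h1 : au F (some (x, false, 0)) = some (x, false, 0) := by rw [h]; rfl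
      have h2 : (some (F x, false, 0) : Option (XX Θ × Bool × ℕ)) = some (x, false, 0) := h1
      simp only [Option.some.injEq, Prod.mk.injEq] at h2
      exact hx h2.1
    · rintro (_ | ⟨y, i, n⟩)
      · rfl
      · exact congrFun (hF y) (i, n)
  obtain ⟨F0, ⟨x0, hx0⟩, -⟩ := exists_auto (Θ := Θ) (C := Unit)
    (fun f => ⟨f (), fun _ => le_rfl⟩) (fun _ => ())
  have hau : au F0 ≠ RelIso.refl _ := by
    intro h
    have h1 : au F0 (some (x0, false, 0)) = some (x0, false, 0) := by rw [h]; rfl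
    have h2 : (some (F0 x0, false, 0) : Option (XX Θ × Bool × ℕ)) = some (x0, false, 0) := h1
    simp only [Option.some.injEq, Prod.mk.injEq] at h2
    exact hx0 h2.1
  set S : Set Cardinal.{0} :=
    {κ : Cardinal.{0} | ∃ φ : GG Θ ≃g GG Θ, φ ≠ RelIso.refl _ ∧ κ = #{v // φ v ≠ v}} with hS
  have hSne : S.Nonempty := ⟨_, au F0, hau, rfl⟩
  have hmem : sInf S ∈ S := csInf_mem hSne
  have hκm : κ ≤ sInf S := by
    obtain ⟨φ, hφ, h⟩ := hmem
    rw [h]
    exact hΘ.ge.trans (hmove φ hφ)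
  have hV : #(Option (XX Θ × Bool × ℕ)) ≤ 2 ^ κ := by
    have h1 : #(XX Θ) ≤ 2 ^ κ := by
      refine (Cardinal.mk_le_of_injective (f := fun x : XX Θ => (x.1 : Θ → ℤ))
        (fun x y h => Subtype.ext h)).trans ?_
      have h2 : #(Θ → ℤ) = ℵ₀ ^ κ := by
        rw [← Cardinal.power_def, hΘ, Cardinal.mk_denumerable]
      have h3 : #(Lex (Θ → ℤ)) = #(Θ → ℤ) := rfl
      rw [h3, h2, ← Cardinal.power_self_eq hκ1.le]
      exact Cardinal.power_le_power_right hκ1.le
    have hκ4 : ℵ₀ ≤ (2 : Cardinal.{0}) ^ κ := hκ1.le.trans (Cardinal.cantor κ).le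
    have h3 : #(Bool × ℕ) ≤ 2 ^ κ := by
      exact (Cardinal.mk_le_aleph0 (α := Bool × ℕ)).trans hκ4
    rw [Cardinal.mk_option, Cardinal.mk_prod, Cardinal.lift_id, Cardinal.lift_id]
    refine Cardinal.add_le_of_le hκ4 ?_ (Cardinal.one_le_aleph0.trans hκ4)
    exact Cardinal.mul_le_of_le hκ4 h1 h3
  have : Nonempty (XX Θ) := ⟨x0⟩
  refine ⟨Option (XX Θ × Bool × ℕ), GG Θ, none, sInf S, treeLike, ⟨hmem, fun _ h => csInf_le' h⟩,
    hκ1.trans_le hκm, hκ2.trans_le hκm, fun v => ?_, hex⟩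
  exact (Cardinal.mk_set_le _).trans (hV.trans (Cardinal.power_le_power_left two_ne_zero hκm))

end Pool.Agent.Results.MP_53e992_co.UncountableMotion
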